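import Mathlib
import Pool.Agent.H66.TokDefs

/-!
Abstract parity pointer game with a second cost: openings of a new colour while more than `h`
used colours are available (MP_7950b2_co).
-/

namespace H62Tok

open H66Tok

/-- number of used colours available at the site `z` -/
def av (s : St) (z : ℕ) : ℕ := (s.k ((z - 1) % 2) - s.n (z - 1)) + (s.k (z % 2) - s.n z)

/-- From `s`, Spoiler can force that (number of colours at the end) + (number of new colours
opened from now on while more than `h` used colours are available) is at least `G`. -/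
inductive SpV (w h : ℕ) : ℕ → St → Prop
  | done (G : ℕ) (s : St) (hG : G ≤ s.k 0 + s.k 1) : SpV w h G s
  | step (G : ℕ) (s : St) (z : ℕ) (d : Bool) (hz : 1 ≤ z) (hM : s.M z < w)
      (hL : s.n (z - 1) < s.k ((z - 1) % 2) → SpV w h G (s.playL z))
      (hR : s.n z < s.k (z % 2) → SpV w h G (s.playR z))
      (hC : av s z ≤ h → SpV w h G (s.new z d))
      (hE : h < av s z → SpV w h (G - 1) (s.new z d)) : SpV w h G s

theorem playL_n (s : St) (e y : ℕ) : (s.playL (e + 1)).n y = if y = e then s.n e + 1 else s.n y := by
  by_cases h : y = e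
  · subst h; simp [St.playL]
  · simp [St.playL, h]

theorem playR_n (s : St) (e y : ℕ) : (s.playR e).n y = if y = e then s.n e + 1 else s.n y := by
  by_cases h : y = e
  · subst h; simp [St.playR]
  · simp [St.playR, h]

theorem playL_M (s : St) (e y : ℕ) : (s.playL (e + 1)).M y =
    if y = e + 1 then s.M (e + 1) + 1 else if y = e then max (s.M e) (s.n e + 1) else s.M y := by
  by_cases h : y = e + 1
  · subst h; simp [St.playL]
  · by_cases h2 : y = e
    · subst h2; simp [St.playL]
    · simp [St.playL, h, h2]

theorem playR_M (s : St) (e y : ℕ) : (s.playR e).M y =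
    if y = e then s.M e + 1 else if y = e + 1 then max (s.M (e + 1)) (s.n e + 1) else s.M y := by
  by_cases h : y = e
  · subst h; simp [St.playR]
  · by_cases h2 : y = e + 1
    · subst h2; simp [St.playR]
    · simp [St.playR, h, h2]

@[simp] theorem playL_k (s : St) (z : ℕ) : (s.playL z).k = s.k := rfl
@[simp] theorem playR_k (s : St) (z : ℕ) : (s.playR z).k = s.k := rfl
@[simp] theorem addk_n (s : St) (i : ℕ) : (s.addk i).n = s.n := rfl
@[simp] theorem addk_M (s : St) (i : ℕ) : (s.addk i).M = s.M := rfl
theorem addk_k (s : St) (i j : ℕ) : (s.addk i).k j = if j = i then s.k j + 1 else s.k j := rfl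

end H62Tok
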