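import Mathlib
import Pool.Agent.H62.TokVDefs

/-!
Strategy of Spoiler against greedy strategies (`h = 0`): passes over a long stretch.
-/

namespace H62Tok

open H66Tok

/-- Uniform situation on the stretch `[a,b]`: class-`r` edges have `N` tokens, the other class is
full with `N'` tokens; sites of parity `u` have level at most `A`, the others at most `B`. -/
structure Uni (s : St) (a b r u N N' K A B : ℕ) : Prop where
  kr : s.k r = K
  kq : s.k (1 - r) = N'
  nr : ∀ e, a ≤ e → e < b → e % 2 = r → s.n e = N
  nq : ∀ e, a ≤ e → e < b → e % 2 = 1 - r → s.n e = N'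
  mA : ∀ z, a < z → z < b → z % 2 = u → s.M z ≤ A
  mB : ∀ z, a < z → z < b → z % 2 = 1 - u → s.M z ≤ B

/-- class-`r` edge of a site of parity `u` -/
def eo (r u z : ℕ) : ℕ := if r = u then z else z - 1

/-- In the middle of a pass over the sites of parity `u`, for the class `r`. -/
structure PMid (s : St) (a b r u c N N' K A B : ℕ) : Prop where
  kr : s.k r = K
  kq : s.k (1 - r) = N'
  nq : ∀ e, a ≤ e → e < b → e % 2 = 1 - r → s.n e = N'
  nu : ∀ z, a < z → z < b → z % 2 = u → c ≤ z → s.n (eo r u z) = N
  np : ∀ z, a < z → z < b → z % 2 = u → z < c → s.n (eo r u z) = N + 1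
  mu : ∀ z, a < z → z < b → z % 2 = u → c ≤ z → s.M z ≤ A
  mp : ∀ z, a < z → z < b → z % 2 = u → z < c → s.M z ≤ A + 1
  mB : ∀ z, a < z → z < b → z % 2 = 1 - u → s.M z ≤ B

/-- token of class `r` at the site `c` -/
def tokr (s : St) (r u c : ℕ) : St := if r = u then s.playR c else s.playL c

theorem PMid.step {s : St} {a b r u c N N' K A B : ℕ} (I : PMid s a b r u c N N' K A B)
    (hr : r < 2) (hu : u < 2) (hac : a < c) (hcb : c < b) (hcu : c % 2 = u)
    (hNB : N + 1 ≤ B) (K' : ℕ) (s' : St) (hn : s'.n = (tokr s r u c).n)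
    (hM : s'.M = (tokr s r u c).M) (hkr : s'.k r = K') (hkq : s'.k (1 - r) = N') :
    PMid s' a b r u (c + 2) N N' K' A B := by
  have hnc := I.nu c hac hcb hcu le_rfl
  have hmc := I.mu c hac hcb hcu le_rfl
  by_cases hru : r = u
  · have ht : tokr s r u c = s.playR c := if_pos hru
    have he : ∀ z, eo r u z = z := fun z => if_pos hru
    rw [ht] at hn hM
    rw [he] at hnc
    refine ⟨hkr, hkq, ?_, ?_, ?_, ?_, ?_, ?_⟩
    · intro e h1 h2 h3
      rw [hn, playR_n, if_neg (by omega)]
      exact I.nq e h1 h2 h3
    · intro z h1 h2 h3 h4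
      rw [he, hn, playR_n, if_neg (by omega)]
      have := I.nu z h1 h2 h3 (by omega)
      rwa [he] at this
    · intro z h1 h2 h3 h4
      rw [he, hn, playR_n]
      by_cases h5 : z = c
      · rw [if_pos h5, hnc]
      · rw [if_neg h5]
        have := I.np z h1 h2 h3 (by omega)
        rwa [he] at this
    · intro z h1 h2 h3 h4
      rw [hM, playR_M, if_neg (by omega), if_neg (by omega)]
      exact I.mu z h1 h2 h3 (by omega)
    · intro z h1 h2 h3 h4
      rw [hM, playR_M]
      by_cases h5 : z = c
      · rw [if_pos h5]; omega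
      · rw [if_neg h5, if_neg (by omega)]
        exact I.mp z h1 h2 h3 (by omega)
    · intro z h1 h2 h3
      have h4 := I.mB z h1 h2 h3
      rw [hM, playR_M, if_neg (by omega)]
      by_cases h5 : z = c + 1
      · subst h5
        rw [if_pos rfl, hnc]
        omega
      · rw [if_neg h5]; exact h4
  · have ht : tokr s r u c = s.playL c := if_neg hru
    have he : ∀ z, eo r u z = z - 1 := fun z => if_neg hru
    rw [ht] at hn hM
    rw [he] at hnc
    obtain ⟨c', rfl⟩ : ∃ c', c = c' + 1 := ⟨c - 1, by omega⟩
    have e1 : c' + 1 - 1 = c' := by omega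
    rw [e1] at hnc
    refine ⟨hkr, hkq, ?_, ?_, ?_, ?_, ?_, ?_⟩
    · intro e h1 h2 h3
      rw [hn, playL_n, if_neg (by omega)]
      exact I.nq e h1 h2 h3
    · intro z h1 h2 h3 h4
      rw [he, hn, playL_n, if_neg (by omega)]
      have := I.nu z h1 h2 h3 (by omega)
      rwa [he] at this
    · intro z h1 h2 h3 h4
      rw [he, hn, playL_n]
      by_cases h5 : z = c' + 1
      · rw [if_pos (by omega), hnc]
      · rw [if_neg (by omega)]
        have := I.np z h1 h2 h3 (by omega)
        rwa [he] at this
    · intro z h1 h2 h3 h4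
      rw [hM, playL_M, if_neg (by omega), if_neg (by omega)]
      exact I.mu z h1 h2 h3 (by omega)
    · intro z h1 h2 h3 h4
      rw [hM, playL_M]
      by_cases h5 : z = c' + 1
      · rw [if_pos h5]; omega
      · rw [if_neg h5, if_neg (by omega)]
        exact I.mp z h1 h2 h3 (by omega)
    · intro z h1 h2 h3
      have h4 := I.mB z h1 h2 h3
      rw [hM, playL_M, if_neg (by omega)]
      by_cases h5 : z = c'
      · subst h5
        rw [if_pos rfl, hnc]
        omega
      · rw [if_neg h5]; exact h4

/-- The move of Spoiler at the site `c`, reduced to three replies. -/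
theorem PMid.move {w : ℕ} {s : St} {a b r u c N N' K A B G : ℕ}
    (I : PMid s a b r u c N N' K A B) (hr : r < 2) (hu : u < 2) (hac : a < c) (hcb : c < b)
    (hcu : c % 2 = u) (hA : A < w)
    (hold : N < K → SpV w 0 G (tokr s r u c))
    (hforced : K ≤ N → SpV w 0 G ((tokr s r u c).addk r))
    (hexp : N < K → SpV w 0 (G - 1) ((tokr s r u c).addk r)) : SpV w 0 G s := by
  have hnc := I.nu c hac hcb hcu le_rfl
  have hmc := I.mu c hac hcb hcu le_rfl
  have hkr := I.kr
  have hkq := I.kq
  by_cases hru : r = u
  · have ht : tokr s r u c = s.playR c := if_pos hru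
    have he : ∀ z, eo r u z = z := fun z => if_pos hru
    rw [ht] at hold hforced hexp
    rw [he] at hnc
    have p1 : c % 2 = r := by omega
    have p2 : (c - 1) % 2 = 1 - r := by omega
    have hnq := I.nq (c - 1) (by omega) (by omega) p2
    have hav : av s c = K - N := by
      unfold av; rw [p1, p2, hkr, hkq, hnq, hnc]; omega
    refine SpV.step G s c false (by omega) (by omega) ?_ ?_ ?_ ?_
    · intro hL
      rw [p2, hkq, hnq] at hL
      omega
    · intro hR
      rw [p1, hkr, hnc] at hR
      exact hold hR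
    · intro hC
      rw [hav] at hC
      have := hforced (by omega)
      rw [← p1] at this
      exact this
    · intro hE
      rw [hav] at hE
      have := hexp (by omega)
      rw [← p1] at this
      exact this
  · have ht : tokr s r u c = s.playL c := if_neg hru
    have he : ∀ z, eo r u z = z - 1 := fun z => if_neg hru
    rw [ht] at hold hforced hexp
    rw [he] at hnc
    have p1 : c % 2 = 1 - r := by omega
    have p2 : (c - 1) % 2 = r := by omega
    have hnq := I.nq c (by omega) (by omega) p1
    have hav : av s c = K - N := by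
      unfold av; rw [p1, p2, hkr, hkq, hnq, hnc]; omega
    refine SpV.step G s c true (by omega) (by omega) ?_ ?_ ?_ ?_
    · intro hL
      rw [p2, hkr, hnc] at hL
      exact hold hL
    · intro hR
      rw [p1, hkq, hnq] at hR
      omega
    · intro hC
      rw [hav] at hC
      have := hforced (by omega)
      rw [← p2] at this
      exact this
    · intro hE
      rw [hav] at hE
      have := hexp (by omega)
      rw [← p2] at this
      exact this

theorem tokr_k (s : St) (r u c : ℕ) : (tokr s r u c).k = s.k := by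
  unfold tokr; split_ifs <;> rfl

/-- The rest of a pass when the class `r` is not full. -/
theorem sweep {w a b r u N N' A B : ℕ} (hr : r < 2) (hu : u < 2) (hA : A < w)
    (hNB : N + 1 ≤ B) :
    ∀ m c (s : St) (K G : ℕ), b ≤ c + m → a < c → c % 2 = u → N < K →
      PMid s a b r u c N N' K A B →
      (∀ (s' : St) (c' K' G' : ℕ), b ≤ c' → PMid s' a b r u c' N N' K' A B → N < K' →
        K' + G' ≤ K + G → SpV w 0 G' s') → SpV w 0 G s := by
  intro m
  induction m with
  | zero =>
    intro c s K G hm hac hcu hNK I cont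
    exact cont s c K G (by omega) I hNK le_rfl
  | succ m ih =>
    intro c s K G hm hac hcu hNK I cont
    by_cases hcb : b ≤ c
    · exact cont s c K G hcb I hNK le_rfl
    rcases Nat.eq_zero_or_pos G with hG | hG
    · subst hG
      exact SpV.done 0 s (Nat.zero_le _)
    refine I.move hr hu hac (by omega) hcu hA ?_ ?_ ?_
    · intro _
      exact ih (c + 2) _ K G (by omega) (by omega) (by omega) hNK
        (I.step hr hu hac (by omega) hcu hNB K _ rfl rfl (by rw [tokr_k]; exact I.kr)
          (by rw [tokr_k]; exact I.kq)) cont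
    · intro h; omega
    · intro _
      refine ih (c + 2) _ (K + 1) (G - 1) (by omega) (by omega) (by omega) (by omega)
        (I.step hr hu hac (by omega) hcu hNB (K + 1) _ rfl rfl ?_ ?_) ?_
      · rw [addk_k, if_pos rfl, tokr_k, I.kr]
      · rw [addk_k, if_neg (by omega), tokr_k, I.kq]
      · intro s' c' K' G' h1 h2 h3 h4
        exact cont s' c' K' G' h1 h2 h3 (by omega)

/-- A whole pass. -/
theorem pass {w a b r u N N' K A B G : ℕ} {s : St} (hr : r < 2) (hu : u < 2) (hA : A < w)
    (hab : a + 4 ≤ b) (I : Uni s a b r u N N' K A B) (hNK : N ≤ K) (S : ℕ)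
    (hS : K + G + (if K = N then 1 else 0) ≤ S)
    (cont : ∀ (s' : St) (K' G' : ℕ),
      Uni s' (a + 1) (b - 1) r u (N + 1) N' K' (A + 1) (max B (N + 1)) → N + 1 ≤ K' →
      K' + G' ≤ S → SpV w 0 G' s') : SpV w 0 G s := by
  obtain ⟨c, hc1, hc2, hc3⟩ : ∃ c, a < c ∧ c ≤ a + 2 ∧ c % 2 = u := by
    by_cases h1 : (a + 1) % 2 = u
    · exact ⟨a + 1, by omega, by omega, h1⟩
    · exact ⟨a + 2, by omega, by omega, by omega⟩
  have heo : ∀ z, a < z → z < b → z % 2 = u → a ≤ eo r u z ∧ eo r u z < b ∧ eo r u z % 2 = r := by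
    intro z h1 h2 h3
    unfold eo
    split_ifs with h
    · exact ⟨by omega, by omega, by omega⟩
    · exact ⟨by omega, by omega, by omega⟩
  have I0 : PMid s a b r u c N N' K A (max B (N + 1)) := by
    refine ⟨I.kr, I.kq, I.nq, ?_, ?_, ?_, ?_, ?_⟩
    · intro z h1 h2 h3 _
      obtain ⟨g1, g2, g3⟩ := heo z h1 h2 h3
      exact I.nr _ g1 g2 g3
    · intro z h1 h2 h3 h4
      omega
    · intro z h1 h2 h3 _
      exact I.mA z h1 h2 h3
    · intro z h1 h2 h3 h4
      omega
    · intro z h1 h2 h3
      exact (I.mB z h1 h2 h3).trans (le_max_left _ _)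
  have fin : ∀ (s' : St) (c' K' G' : ℕ), b ≤ c' →
      PMid s' a b r u c' N N' K' A (max B (N + 1)) → N < K' → K' + G' ≤ S → SpV w 0 G' s' := by
    intro s' c' K' G' h1 J h2 h3
    refine cont s' K' G' ⟨J.kr, J.kq, ?_, ?_, ?_, ?_⟩ h2 h3
    · intro e g1 g2 g3
      by_cases hru : r = u
      · have := J.np e (by omega) (by omega) (by omega) (by omega)
        rwa [eo, if_pos hru] at this
      · have := J.np (e + 1) (by omega) (by omega) (by omega) (by omega)
        rw [eo, if_neg hru] at this
        simpa using this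
    · intro e g1 g2 g3
      exact J.nq e (by omega) (by omega) g3
    · intro z g1 g2 g3
      exact J.mp z (by omega) (by omega) g3 (by omega)
    · intro z g1 g2 g3
      exact J.mB z (by omega) (by omega) g3
  by_cases hKN : K = N
  · rw [if_pos hKN] at hS
    refine I0.move hr hu hc1 (by omega) hc3 hA ?_ ?_ ?_
    · intro h; omega
    · intro _
      refine sweep (a := a) (b := b) hr hu hA (le_max_right _ _) b (c + 2) _ (K + 1) G (by omega) (by omega)
        (by omega) (by omega)
        (I0.step hr hu hc1 (by omega) hc3 (le_max_right _ _) (K + 1) _ rfl rfl ?_ ?_) ?_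
      · rw [addk_k, if_pos rfl, tokr_k, I0.kr]
      · rw [addk_k, if_neg (by omega), tokr_k, I0.kq]
      · intro s' c' K' G' h1 h2 h3 h4
        exact fin s' c' K' G' h1 h2 h3 (by omega)
    · intro h; omega
  · rw [if_neg hKN] at hS
    refine sweep (a := a) (b := b) hr hu hA (le_max_right _ _) b c s K G (by omega) hc1 hc3 (by omega) I0 ?_
    intro s' c' K' G' h1 h2 h3 h4
    exact fin s' c' K' G' h1 h2 h3 (by omega)

theorem Uni.swapc {s : St} {a b r u N N' A B : ℕ} (hr : r < 2) (I : Uni s a b r u N N' N A B) :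
    Uni s a b (1 - r) u N' N N' A B := by
  have h1 : 1 - (1 - r) = r := by omega
  exact ⟨I.kq, by rw [h1]; exact I.kr, I.nq, by rw [h1]; exact I.nr, I.mA, I.mB⟩

theorem Uni.swapu {s : St} {a b r u N N' K A B : ℕ} (hu : u < 2)
    (I : Uni s a b r u N N' K A B) : Uni s a b r (1 - u) N N' K B A := by
  have h1 : 1 - (1 - u) = u := by omega
  exact ⟨I.kr, I.kq, I.nr, I.nq, I.mB, by rw [h1]; exact I.mA⟩

theorem allPasses (w : ℕ) : ∀ m (s : St) (a b r u N N' K A B G : ℕ), r < 2 → u < 2 →
    Uni s a b r u N N' K A B → N ≤ K → (A = B ∨ A + 1 = B) → B ≤ w → N ≤ A → N' ≤ A →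
    2 * w ≤ A + B + m → a + 2 * m + 4 ≤ b →
    A + B + (K + N') + G ≤ 2 * w + 2 * (N + N') → N + N' + 1 ≤ A + B → SpV w 0 G s := by
  intro m
  induction m with
  | zero =>
    intro s a b r u N N' K A B G hr hu I hNK hAB hBw hNA hNA' hm hab hG hT
    apply SpV.done
    have : s.k 0 + s.k 1 = K + N' := by
      have h2 : r = 0 ∨ r = 1 := by omega
      have h3 := I.kr
      have h4 := I.kq
      rcases h2 with rfl | rfl
      · simp at h4; omega
      · simp at h4; omega
    omega
  | succ m ih =>
    intro s a b r u N N' K A B G hr hu I hNK hAB hBw hNA hNA' hm hab hG hT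
    by_cases hAw : w ≤ A
    · apply SpV.done
      have : s.k 0 + s.k 1 = K + N' := by
        have h2 : r = 0 ∨ r = 1 := by omega
        have h3 := I.kr
        have h4 := I.kq
        rcases h2 with rfl | rfl
        · simp at h4; omega
        · simp at h4; omega
      omega
    -- one pass for the class `r'`
    have key : ∀ (r' N1 N1' K1 : ℕ), r' < 2 → Uni s a b r' u N1 N1' K1 A B → N1 ≤ K1 →
        N1 ≤ A → N1' ≤ A → A + B + (K1 + N1') + G ≤ 2 * w + 2 * (N1 + N1') →
        N1 + N1' + 1 ≤ A + B → (N1 < K1 ∨ A + 1 = B ∨ N1 < A) → SpV w 0 G s := by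
      intro r' N1 N1' K1 hr' I1 hNK1 hNA1 hNA1' hG1 hT1 hfree
      refine pass hr' hu (by omega) (by omega) I1 hNK1 _ le_rfl ?_
      intro s' K' G' J hK' hS
      rcases hAB with hAB | hAB
      · by_cases hNA2 : N1 < A
        · have hmax : max B (N1 + 1) = B := max_eq_left (by omega)
          rw [hmax] at J
          refine ih s' (a + 1) (b - 1) r' (1 - u) (N1 + 1) N1' K' B (A + 1) G' hr' (by omega)
            (J.swapu hu) hK' (Or.inr (by omega)) (by omega) (by omega) (by omega) (by omega)
            (by omega) ?_ (by omega)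
          split_ifs at hS <;> omega
        · have hmax : max B (N1 + 1) = A + 1 := by
            rw [max_eq_right (by omega)]; omega
          rw [hmax] at J
          refine ih s' (a + 1) (b - 1) r' u (N1 + 1) N1' K' (A + 1) (A + 1) G' hr' hu
            J hK' (Or.inl rfl) (by omega) (by omega) (by omega) (by omega)
            (by omega) ?_ (by omega)
          split_ifs at hS <;> omega
      · have hmax : max B (N1 + 1) = A + 1 := by
          rw [max_eq_left (by omega)]; omega
        rw [hmax] at J
        refine ih s' (a + 1) (b - 1) r' u (N1 + 1) N1' K' (A + 1) (A + 1) G' hr' hu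
          J hK' (Or.inl rfl) (by omega) (by omega) (by omega) (by omega)
          (by omega) ?_ (by omega)
        split_ifs at hS <;> omega
    by_cases hfree : N < K ∨ A + 1 = B ∨ N < A
    · exact key r N N' K hr I hNK hNA hNA' hG hT hfree
    · have hK : K = N := by omega
      subst hK
      exact key (1 - r) N' K N' (by omega) (I.swapc hr) le_rfl hNA' hNA (by omega) (by omega)
        (Or.inr (Or.inr (by omega)))

/-- Spoiler forces `2w - 1` against greedy strategies, with one less for every voluntary opening. -/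
theorem spV_zero (w : ℕ) : SpV w 0 (2 * w - 1) St.init := by
  rcases Nat.eq_zero_or_pos w with hw | hw
  · subst hw
    exact SpV.done _ _ (Nat.zero_le _)
  · have I : Uni St.init 0 (4 * w + 8) 0 0 0 0 0 0 0 := by
      refine ⟨rfl, rfl, ?_, ?_, ?_, ?_⟩
      · intro e _ _ _; rfl
      · intro e _ _ _; rfl
      · intro z _ _ _; exact le_rfl
      · intro z _ _ _; exact le_rfl
    refine pass (by norm_num) (by norm_num) hw (by omega) I le_rfl (2 * w) ?_ ?_
    · simp; omega
    · intro s' K' G' J hK' hS
      refine allPasses w (2 * w - 2) s' 1 (4 * w + 8 - 1) 0 0 1 0 K' 1 1 G' (by norm_num)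
        (by norm_num) J hK' (Or.inl rfl) (by omega) (by omega) (by omega) (by omega) (by omega)
        (by omega) (by omega)

end H62Tok
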