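import Mathlib
import Pool.Agent.H62.TokVDefs

/-!
Strategy of Spoiler against nearly greedy strategies: linear loss in `h`.

Ghost loads: `lo e`, `hi e` are twice the loads of the left and of the right end of the edge `e`.
-/

namespace H62Tok

open H66Tok

/-- Loads after a token on the edge `e` from its left end. -/
def loR (lo : ℕ → ℕ) (e : ℕ) : ℕ → ℕ := fun y => if y = e then lo e + 2 else lo y
def hiR (Ω : ℕ) (s : St) (lo hi : ℕ → ℕ) (e : ℕ) : ℕ → ℕ :=
  fun y => if y = e then max (hi e) (2 * (s.n e + 1) - lo (e + 1) - Ω) else hi y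
/-- Loads after a token on the edge `e` from its right end. -/
def hiL (hi : ℕ → ℕ) (e : ℕ) : ℕ → ℕ := fun y => if y = e then hi e + 2 else hi y
def loL (Ω : ℕ) (s : St) (lo hi : ℕ → ℕ) (e : ℕ) : ℕ → ℕ :=
  fun y => if y = e then max (lo e) (2 * (s.n e + 1) - hi (e - 1) - Ω) else lo y

/-- The level of the inner sites of the stretch `[a,b]` is bounded by the loads. -/
def Lev (Ω : ℕ) (s : St) (lo hi : ℕ → ℕ) (a b : ℕ) : Prop :=
  ∀ z, a < z → z < b → 2 * s.M z ≤ hi (z - 1) + lo z + Ω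

theorem lev_R {Ω : ℕ} {s : St} {lo hi : ℕ → ℕ} {a b : ℕ} (H : Lev Ω s lo hi a b) (e : ℕ)
    (he : a < e) (heb : e < b) : Lev Ω (s.playR e) (loR lo e) (hiR Ω s lo hi e) a b := by
  intro z hz hzb
  have h1 := H z hz hzb
  rw [playR_M]
  simp only [loR, hiR]
  by_cases h : z = e
  · subst h
    have h2 : z - 1 ≠ z := by omega
    rw [if_pos rfl, if_pos rfl, if_neg h2]
    omega
  · rw [if_neg h, if_neg h]
    by_cases h2 : z = e + 1
    · subst h2
      rw [if_pos rfl, if_pos (by omega)]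
      have h3 : e + 1 - 1 = e := by omega
      rw [h3] at h1
      omega
    · rw [if_neg h2, if_neg (by omega)]
      exact h1

theorem lev_L {Ω : ℕ} {s : St} {lo hi : ℕ → ℕ} {a b : ℕ} (H : Lev Ω s lo hi a b) (e : ℕ)
    (he : a ≤ e) (heb : e + 1 < b) : Lev Ω (s.playL (e + 1)) (loL Ω s lo hi e) (hiL hi e) a b := by
  intro z hz hzb
  have h1 := H z hz hzb
  rw [playL_M]
  simp only [loL, hiL]
  by_cases h : z = e + 1
  · subst h
    have h3 : e + 1 - 1 = e := by omega
    rw [h3] at h1 ⊢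
    have h2 : e + 1 ≠ e := by omega
    rw [if_pos rfl, if_pos rfl, if_neg h2]
    omega
  · rw [if_neg h]
    have h4 : z - 1 ≠ e := by omega
    rw [if_neg h4]
    by_cases h2 : z = e
    · subst h2
      rw [if_pos rfl, if_pos rfl]
      omega
    · rw [if_neg h2, if_neg h2]
      exact h1

/-- Basic facts about one edge: `k` colours, `v` expensive ones, `c` cheap ones. -/
structure Bas (Γ k v c n l r : ℕ) : Prop where
  nk : n ≤ k
  lo : 2 * n ≤ l + r
  up : l + r ≤ 2 * n + 2 * v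
  hl : l + c ≤ 2 * n + Γ
  hr : r + c ≤ 2 * n + Γ

/-- A class-`r` edge not yet treated in the current stage. -/
structure Unp (Γ k v c τ β n l r : ℕ) : Prop where
  bas : Bas Γ k v c n l r
  nt : n ≤ τ
  bl : l ≤ β ∨ l ≤ n + v + 1
  br : r ≤ β ∨ r ≤ n + v + 1

theorem Bas.symm {Γ k v c n l r : ℕ} (B : Bas Γ k v c n l r) : Bas Γ k v c n r l :=
  ⟨B.nk, by have := B.lo; omega, by have := B.up; omega, B.hr, B.hl⟩

theorem Unp.symm {Γ k v c τ β n l r : ℕ} (U : Unp Γ k v c τ β n l r) : Unp Γ k v c τ β n r l :=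
  ⟨U.bas.symm, U.nt, U.br, U.bl⟩

theorem Bas.low {Γ k v c n l r : ℕ} (B : Bas Γ k v c n l r) : c ≤ l + Γ := by
  have := B.lo; have := B.hr; omega

theorem Bas.mono {Γ k k' v c n l r : ℕ} (B : Bas Γ k v c n l r) (h : k ≤ k') :
    Bas Γ k' v c n l r := ⟨B.nk.trans h, B.lo, B.up, B.hl, B.hr⟩

theorem Unp.mono {Γ k k' v c τ β n l r : ℕ} (U : Unp Γ k v c τ β n l r) (h : k ≤ k') :
    Unp Γ k' v c τ β n l r := ⟨U.bas.mono h, U.nt, U.bl, U.br⟩

/-- A token on the current edge, from its end of smaller load. -/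
theorem Unp.tok {h g k k' c V cq n l r μ : ℕ} (hg : h ≤ g) (hg1 : g ≤ 3 * h + 2)
    (U : Unp (h + 1) k V c (c + V + g) (c + 2 * V + (h + 1)) n l r) (hn : n < c + V + g)
    (hlr : l ≤ r) (hk : n + 1 ≤ k') (hcq : c ≤ cq) (hμ : cq ≤ μ + (h + 1)) :
    Unp (h + 1) k' V c (c + V + g) (c + 2 * V + (h + 1)) (n + 1) (l + 2)
      (max r (2 * (n + 1) - μ - (g + 3 * h + 2))) := by
  obtain ⟨⟨_, h2, h3, h4, h5⟩, h6, h7, h8⟩ := U
  refine ⟨⟨hk, ?_, ?_, ?_, ?_⟩, ?_, ?_, ?_⟩ <;> omega

/-- A token on an edge of the other class. -/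
theorem Bas.tok {h g c cq Vq n l r μ : ℕ} (B : Bas (h + 1) (cq + Vq) Vq cq n l r)
    (hn : n < cq + Vq) (hcq : cq ≤ c + (g + h)) (hμ : c ≤ μ + (h + 1)) :
    Bas (h + 1) (cq + Vq) Vq cq (n + 1) (l + 2) (max r (2 * (n + 1) - μ - (g + 3 * h + 2))) := by
  obtain ⟨_, h2, h3, h4, h5⟩ := B
  refine ⟨?_, ?_, ?_, ?_, ?_⟩ <;> omega

/-- A fully treated edge. -/
theorem Unp.fin {h g k c V n l r : ℕ} (hg : h ≤ g)
    (U : Unp (h + 1) k V c (c + V + g) (c + 2 * V + (h + 1)) n l r) (hn : n = c + V + g) :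
    Bas (h + 1) k V (c + g + h) n l r := by
  obtain ⟨⟨h1, h2, h3, h4, h5⟩, h6, h7, h8⟩ := U
  refine ⟨h1, h2, h3, ?_, ?_⟩ <;> omega

/-- Situation in the middle of a stage for the class `r`: the edges of class `r` from `a+2` up to
`p` are treated. -/
structure Mid (h g : ℕ) (s : St) (lo hi : ℕ → ℕ) (a b r p c V cq Vq cc Vc : ℕ) : Prop where
  kr : s.k r = cc + Vc
  kq : s.k (1 - r) = cq + Vq
  cc1 : c ≤ cc
  cc2 : cc ≤ c + g + h
  vc : V ≤ Vc
  unp : ∀ e, a ≤ e → e < b → e % 2 = r → (e < a + 2 ∨ p ≤ e) →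
    Unp (h + 1) (cc + Vc) V c (c + V + g) (c + 2 * V + (h + 1)) (s.n e) (lo e) (hi e)
  pro : ∀ e, a + 2 ≤ e → e < b → e % 2 = r → e < p →
    s.n e = c + V + g ∧ Bas (h + 1) (cc + Vc) V (c + g + h) (s.n e) (lo e) (hi e)
  q : ∀ e, a ≤ e → e < b → e % 2 = 1 - r → Bas (h + 1) (cq + Vq) Vq cq (s.n e) (lo e) (hi e)
  lev : Lev (g + 3 * h + 2) s lo hi a b

section
variable {h g : ℕ} {s : St} {lo hi : ℕ → ℕ} {a b r p c V cq Vq cc Vc : ℕ}

theorem Mid.low (I : Mid h g s lo hi a b r p c V cq Vq cc Vc) (e : ℕ) (ha : a ≤ e) (hb : e < b)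
    (he : e % 2 = r) : c ≤ lo e + (h + 1) ∧ c ≤ hi e + (h + 1) := by
  by_cases h1 : e < a + 2 ∨ p ≤ e
  · have U := I.unp e ha hb he h1
    exact ⟨U.bas.low, U.bas.symm.low⟩
  · have U := (I.pro e (by omega) hb he (by omega)).2
    have h2 := U.low
    have h3 := U.symm.low
    constructor <;> omega

theorem Mid.ownR (hg : h ≤ g) (hg1 : g ≤ 3 * h + 2)
    (I : Mid h g s lo hi a b r p c V cq Vq cc Vc) (hr : r < 2) (hp : a + 2 ≤ p)
    (hpb : p + 2 < b) (hpr : p % 2 = r) (hcq : c ≤ cq) (hn : s.n p < c + V + g)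
    (hlr : lo p ≤ hi p) (cc' Vc' : ℕ) (hcc : cc ≤ cc') (hcc2 : cc' ≤ c + g + h) (hVc : Vc ≤ Vc')
    (hnk : s.n p + 1 ≤ cc' + Vc') (s' : St) (hsn : s'.n = (s.playR p).n)
    (hsM : s'.M = (s.playR p).M) (hkr : s'.k r = cc' + Vc') (hkq : s'.k (1 - r) = cq + Vq) :
    Mid h g s' (loR lo p) (hiR (g + 3 * h + 2) s lo hi p) a b r p c V cq Vq cc' Vc' := by
  have hq := (I.q (p + 1) (by omega) (by omega) (by omega)).low
  refine ⟨hkr, hkq, I.cc1.trans hcc, hcc2, I.vc.trans hVc, ?_, ?_, ?_, ?_⟩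
  · intro e h1 h2 h3 h4
    rw [hsn, playR_n]
    simp only [loR, hiR]
    by_cases he : e = p
    · subst he
      rw [if_pos rfl, if_pos rfl, if_pos rfl]
      exact (I.unp e h1 h2 h3 (Or.inr le_rfl)).tok hg hg1 hn hlr hnk hcq hq
    · rw [if_neg he, if_neg he, if_neg he]
      exact (I.unp e h1 h2 h3 h4).mono (by omega)
  · intro e h1 h2 h3 h4
    have he : e ≠ p := by omega
    rw [hsn, playR_n]
    simp only [loR, hiR]
    rw [if_neg he, if_neg he, if_neg he]
    obtain ⟨h5, h6⟩ := I.pro e h1 h2 h3 h4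
    exact ⟨h5, h6.mono (by omega)⟩
  · intro e h1 h2 h3
    have he : e ≠ p := by omega
    rw [hsn, playR_n]
    simp only [loR, hiR]
    rw [if_neg he, if_neg he, if_neg he]
    exact I.q e h1 h2 h3
  · intro z hz hzb
    rw [hsM]
    exact lev_R I.lev p (by omega) (by omega) z hz hzb

theorem Mid.ownL (hg : h ≤ g) (hg1 : g ≤ 3 * h + 2)
    (I : Mid h g s lo hi a b r p c V cq Vq cc Vc) (hr : r < 2) (hp : a + 2 ≤ p)
    (hpb : p + 2 < b) (hpr : p % 2 = r) (hcq : c ≤ cq) (hn : s.n p < c + V + g)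
    (hlr : hi p ≤ lo p) (cc' Vc' : ℕ) (hcc : cc ≤ cc') (hcc2 : cc' ≤ c + g + h) (hVc : Vc ≤ Vc')
    (hnk : s.n p + 1 ≤ cc' + Vc') (s' : St) (hsn : s'.n = (s.playL (p + 1)).n)
    (hsM : s'.M = (s.playL (p + 1)).M) (hkr : s'.k r = cc' + Vc')
    (hkq : s'.k (1 - r) = cq + Vq) :
    Mid h g s' (loL (g + 3 * h + 2) s lo hi p) (hiL hi p) a b r p c V cq Vq cc' Vc' := by
  have hq := (I.q (p - 1) (by omega) (by omega) (by omega)).symm.low
  refine ⟨hkr, hkq, I.cc1.trans hcc, hcc2, I.vc.trans hVc, ?_, ?_, ?_, ?_⟩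
  · intro e h1 h2 h3 h4
    rw [hsn, playL_n]
    simp only [loL, hiL]
    by_cases he : e = p
    · subst he
      rw [if_pos rfl, if_pos rfl, if_pos rfl]
      exact ((I.unp e h1 h2 h3 (Or.inr le_rfl)).symm.tok hg hg1 hn hlr hnk hcq hq).symm
    · rw [if_neg he, if_neg he, if_neg he]
      exact (I.unp e h1 h2 h3 h4).mono (by omega)
  · intro e h1 h2 h3 h4
    have he : e ≠ p := by omega
    rw [hsn, playL_n]
    simp only [loL, hiL]
    rw [if_neg he, if_neg he, if_neg he]
    obtain ⟨h5, h6⟩ := I.pro e h1 h2 h3 h4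
    exact ⟨h5, h6.mono (by omega)⟩
  · intro e h1 h2 h3
    have he : e ≠ p := by omega
    rw [hsn, playL_n]
    simp only [loL, hiL]
    rw [if_neg he, if_neg he, if_neg he]
    exact I.q e h1 h2 h3
  · intro z hz hzb
    rw [hsM]
    exact lev_L I.lev p (by omega) (by omega) z hz hzb

theorem Mid.otherR
    (I : Mid h g s lo hi a b r p c V cq Vq cc Vc) (hr : r < 2) (hp : a + 2 ≤ p)
    (hpb : p + 2 < b) (hpr : p % 2 = r) (hcq : cq ≤ c + (g + h))
    (hn : s.n (p + 1) < cq + Vq) :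
    Mid h g (s.playR (p + 1)) (loR lo (p + 1)) (hiR (g + 3 * h + 2) s lo hi (p + 1)) a b r p
      c V cq Vq cc Vc := by
  have hq := (I.low (p + 2) (by omega) (by omega) (by omega)).1
  refine ⟨I.kr, I.kq, I.cc1, I.cc2, I.vc, ?_, ?_, ?_, ?_⟩
  · intro e h1 h2 h3 h4
    have he : e ≠ p + 1 := by omega
    rw [playR_n]
    simp only [loR, hiR]
    rw [if_neg he, if_neg he, if_neg he]
    exact I.unp e h1 h2 h3 h4
  · intro e h1 h2 h3 h4
    have he : e ≠ p + 1 := by omega
    rw [playR_n]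
    simp only [loR, hiR]
    rw [if_neg he, if_neg he, if_neg he]
    exact I.pro e h1 h2 h3 h4
  · intro e h1 h2 h3
    rw [playR_n]
    simp only [loR, hiR]
    by_cases he : e = p + 1
    · subst he
      rw [if_pos rfl, if_pos rfl, if_pos rfl]
      exact (I.q (p + 1) h1 h2 h3).tok hn hcq hq
    · rw [if_neg he, if_neg he, if_neg he]
      exact I.q e h1 h2 h3
  · exact lev_R I.lev (p + 1) (by omega) (by omega)

theorem Mid.otherL
    (I : Mid h g s lo hi a b r p c V cq Vq cc Vc) (hr : r < 2) (hp : a + 2 ≤ p)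
    (hpb : p + 2 < b) (hpr : p % 2 = r) (hcq : cq ≤ c + (g + h))
    (hn : s.n (p - 1) < cq + Vq) :
    Mid h g (s.playL p) (loL (g + 3 * h + 2) s lo hi (p - 1)) (hiL hi (p - 1)) a b r p
      c V cq Vq cc Vc := by
  obtain ⟨p', rfl⟩ : ∃ p', p = p' + 1 := ⟨p - 1, by omega⟩
  have e1 : p' + 1 - 1 = p' := by omega
  rw [e1] at hn ⊢
  have hq := (I.low (p' - 1) (by omega) (by omega) (by omega)).2
  refine ⟨I.kr, I.kq, I.cc1, I.cc2, I.vc, ?_, ?_, ?_, ?_⟩
  · intro e h1 h2 h3 h4
    have he : e ≠ p' := by omega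
    rw [playL_n]
    simp only [loL, hiL]
    rw [if_neg he, if_neg he, if_neg he]
    exact I.unp e h1 h2 h3 h4
  · intro e h1 h2 h3 h4
    have he : e ≠ p' := by omega
    rw [playL_n]
    simp only [loL, hiL]
    rw [if_neg he, if_neg he, if_neg he]
    exact I.pro e h1 h2 h3 h4
  · intro e h1 h2 h3
    rw [playL_n]
    simp only [loL, hiL]
    by_cases he : e = p'
    · subst he
      rw [if_pos rfl, if_pos rfl, if_pos rfl]
      exact ((I.q e h1 h2 h3).symm.tok hn hcq hq).symm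
    · rw [if_neg he, if_neg he, if_neg he]
      exact I.q e h1 h2 h3
  · exact lev_L I.lev p' (by omega) (by omega)

end

theorem sum_k (s : St) (r : ℕ) (hr : r < 2) : s.k 0 + s.k 1 = s.k r + s.k (1 - r) := by
  have : r = 0 ∨ r = 1 := by omega
  rcases this with rfl | rfl
  · rfl
  · rw [add_comm]

/-- Treating one edge. -/
theorem edge_loop {w h g T : ℕ} (hg : h ≤ g) (hg1 : g ≤ 3 * h + 2)
    (hT : T + (2 * g + 4 * h + 3) ≤ 2 * w + 1) {a b r p c V cq Vq : ℕ}
    (hr : r < 2) (hp : a + 2 ≤ p) (hpb : p + 2 < b) (hpr : p % 2 = r) (hccq : c ≤ cq)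
    (hcqc : cq ≤ c + (g + h)) :
    ∀ m (s : St) (lo hi : ℕ → ℕ) (cc Vc G : ℕ),
      (c + V + g - s.n p) + (cq + Vq - s.n (p - 1)) + (cq + Vq - s.n (p + 1)) ≤ m →
      Mid h g s lo hi a b r p c V cq Vq cc Vc → G + Vc + Vq ≤ T →
      (∀ (s' : St) (lo' hi' : ℕ → ℕ) (cc' Vc' G' : ℕ),
        Mid h g s' lo' hi' a b r p c V cq Vq cc' Vc' → s'.n p = c + V + g →
        G' + Vc' + Vq ≤ T → SpV w h G' s') →
      SpV w h G s := by
  intro m
  induction m with
  | zero =>
    intro s lo hi cc Vc G hm I hG cont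
    have h1 := (I.unp p (by omega) (by omega) hpr (Or.inr le_rfl)).nt
    exact cont s lo hi cc Vc G I (by omega) hG
  | succ m ih =>
    intro s lo hi cc Vc G hm I hG cont
    have U := I.unp p (by omega) (by omega) hpr (Or.inr le_rfl)
    have hnt := U.nt
    have hk01 := sum_k s r hr
    rw [I.kr, I.kq] at hk01
    by_cases hn : s.n p = c + V + g
    · exact cont s lo hi cc Vc G I hn hG
    have hn' : s.n p < c + V + g := by omega
    rcases Nat.eq_zero_or_pos G with hG0 | hG0
    · subst hG0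
      exact SpV.done 0 s (Nat.zero_le _)
    have hkp : s.k (p % 2) = cc + Vc := by rw [hpr]; exact I.kr
    have e0 : p - 1 + 1 = p := by omega
    have hkp1 : s.k ((p - 1) % 2) = cq + Vq := by
      have : (p - 1) % 2 = 1 - r := by omega
      rw [this]; exact I.kq
    have hkp2 : s.k ((p + 1) % 2) = cq + Vq := by
      have : (p + 1) % 2 = 1 - r := by omega
      rw [this]; exact I.kq
    have hc1 := I.cc1
    have hc2 := I.cc2
    have hv := I.vc
    have hUup := U.bas.up
    have hUnk := U.bas.nk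
    have q1 := I.q (p - 1) (by omega) (by omega) (by omega)
    have q2 := I.q (p + 1) (by omega) (by omega) (by omega)
    have q1n := q1.nk
    have q2n := q2.nk
    rcases le_total (lo p) (hi p) with hlr | hlr
    · -- play at the left end, site p
      by_cases hM : s.M p < w
      · refine SpV.step G s p false (by omega) hM ?_ ?_ ?_ ?_
        · intro hL
          rw [hkp1] at hL
          refine ih _ _ _ cc Vc G ?_ (I.otherL hr hp hpb hpr hcqc hL) hG cont
          have e1 : (s.playL p).n p = s.n p := by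
            rw [← e0, playL_n, if_neg (by omega)]
          have e2 : (s.playL p).n (p - 1) = s.n (p - 1) + 1 := by
            conv_lhs => rw [← e0]
            rw [playL_n, if_pos (by omega)]
          have e3 : (s.playL p).n (p + 1) = s.n (p + 1) := by
            conv_lhs => rw [← e0]
            rw [playL_n, if_neg (by omega)]
            congr 1
            omega
          rw [e1, e2, e3]
          omega
        · intro hR
          rw [hkp] at hR
          refine ih _ _ _ cc Vc G ?_ (I.ownR hg hg1 hr hp hpb hpr hccq hn' hlr cc Vc le_rfl hc2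
            le_rfl (by omega) (s.playR p) rfl rfl I.kr I.kq) hG cont
          rw [playR_n, playR_n, playR_n, if_pos rfl, if_neg (by omega), if_neg (by omega)]
          omega
        · intro hC
          have hav : cc + Vc - s.n p ≤ h := by
            unfold av at hC; rw [hkp] at hC; omega
          refine ih _ _ _ (cc + 1) Vc G ?_ (I.ownR hg hg1 hr hp hpb hpr hccq hn' hlr (cc + 1) Vc
            (by omega) (by omega) le_rfl (by omega) (s.new p false) rfl rfl ?_ ?_) hG cont
          · change (_ - (s.playR p).n p) + (_ - (s.playR p).n (p - 1)) +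
              (_ - (s.playR p).n (p + 1)) ≤ m
            rw [playR_n, playR_n, playR_n, if_pos rfl, if_neg (by omega), if_neg (by omega)]
            omega
          · change ((s.playR p).addk (p % 2)).k r = _
            rw [addk_k, hpr, if_pos rfl, playR_k, I.kr]; omega
          · change ((s.playR p).addk (p % 2)).k (1 - r) = _
            rw [addk_k, hpr, if_neg (by omega), playR_k, I.kq]
        · intro hE
          refine ih _ _ _ cc (Vc + 1) (G - 1) ?_ (I.ownR hg hg1 hr hp hpb hpr hccq hn' hlr cc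
            (Vc + 1) (by omega) (by omega) (by omega) (by omega) (s.new p false) rfl rfl ?_ ?_)
            (by omega) cont
          · change (_ - (s.playR p).n p) + (_ - (s.playR p).n (p - 1)) +
              (_ - (s.playR p).n (p + 1)) ≤ m
            rw [playR_n, playR_n, playR_n, if_pos rfl, if_neg (by omega), if_neg (by omega)]
            omega
          · change ((s.playR p).addk (p % 2)).k r = _
            rw [addk_k, hpr, if_pos rfl, playR_k, I.kr]; omega
          · change ((s.playR p).addk (p % 2)).k (1 - r) = _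
            rw [addk_k, hpr, if_neg (by omega), playR_k, I.kq]
      · -- the site is full
        apply SpV.done
        rw [hk01]
        have h1 := I.lev p (by omega) (by omega)
        have h2 := q1.hr
        omega
    · by_cases hM : s.M (p + 1) < w
      · refine SpV.step G s (p + 1) true (by omega) hM ?_ ?_ ?_ ?_
        · intro hL
          have e1 : p + 1 - 1 = p := by omega
          rw [e1, hkp] at hL
          refine ih _ _ _ cc Vc G ?_ (I.ownL hg hg1 hr hp hpb hpr hccq hn' hlr cc Vc le_rfl hc2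
            le_rfl (by omega) (s.playL (p + 1)) rfl rfl I.kr I.kq) hG cont
          rw [playL_n, playL_n, playL_n, if_pos rfl, if_neg (by omega), if_neg (by omega)]
          omega
        · intro hR
          rw [hkp2] at hR
          refine ih _ _ _ cc Vc G ?_ (I.otherR hr hp hpb hpr hcqc hR) hG cont
          rw [playR_n, playR_n, playR_n, if_neg (by omega), if_neg (by omega), if_pos rfl]
          omega
        · intro hC
          have e1 : p + 1 - 1 = p := by omega
          have hav : cc + Vc - s.n p ≤ h := by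
            unfold av at hC; rw [e1, hkp] at hC; omega
          refine ih _ _ _ (cc + 1) Vc G ?_ (I.ownL hg hg1 hr hp hpb hpr hccq hn' hlr (cc + 1) Vc
            (by omega) (by omega) le_rfl (by omega) (s.new (p + 1) true) rfl rfl ?_ ?_) hG cont
          · change (_ - (s.playL (p + 1)).n p) + (_ - (s.playL (p + 1)).n (p - 1)) +
              (_ - (s.playL (p + 1)).n (p + 1)) ≤ m
            rw [playL_n, playL_n, playL_n, if_pos rfl, if_neg (by omega), if_neg (by omega)]
            omega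
          · change ((s.playL (p + 1)).addk ((p + 1 - 1) % 2)).k r = _
            rw [e1, addk_k, hpr, if_pos rfl, playL_k, I.kr]; omega
          · change ((s.playL (p + 1)).addk ((p + 1 - 1) % 2)).k (1 - r) = _
            rw [e1, addk_k, hpr, if_neg (by omega), playL_k, I.kq]
        · intro hE
          have e1 : p + 1 - 1 = p := by omega
          refine ih _ _ _ cc (Vc + 1) (G - 1) ?_ (I.ownL hg hg1 hr hp hpb hpr hccq hn' hlr cc
            (Vc + 1) (by omega) (by omega) (by omega) (by omega) (s.new (p + 1) true) rfl rfl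
            ?_ ?_) (by omega) cont
          · change (_ - (s.playL (p + 1)).n p) + (_ - (s.playL (p + 1)).n (p - 1)) +
              (_ - (s.playL (p + 1)).n (p + 1)) ≤ m
            rw [playL_n, playL_n, playL_n, if_pos rfl, if_neg (by omega), if_neg (by omega)]
            omega
          · change ((s.playL (p + 1)).addk ((p + 1 - 1) % 2)).k r = _
            rw [e1, addk_k, hpr, if_pos rfl, playL_k, I.kr]; omega
          · change ((s.playL (p + 1)).addk ((p + 1 - 1) % 2)).k (1 - r) = _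
            rw [e1, addk_k, hpr, if_neg (by omega), playL_k, I.kq]
      · apply SpV.done
        rw [hk01]
        have e1 : p + 1 - 1 = p := by omega
        have h1 := I.lev (p + 1) (by omega) (by omega)
        rw [e1] at h1
        have h2 := q2.hl
        omega

/-- A whole stage. -/
theorem stage {w h g T : ℕ} (hg : h ≤ g) (hg1 : g ≤ 3 * h + 2)
    (hT : T + (2 * g + 4 * h + 3) ≤ 2 * w + 1) {a b r c V cq Vq : ℕ}
    (hr : r < 2) (hccq : c ≤ cq) (hcqc : cq ≤ c + (g + h)) :
    ∀ m p (s : St) (lo hi : ℕ → ℕ) (cc Vc G : ℕ), b ≤ p + m → a + 2 ≤ p → p % 2 = r →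
      Mid h g s lo hi a b r p c V cq Vq cc Vc → G + Vc + Vq ≤ T →
      (∀ (p' : ℕ) (s' : St) (lo' hi' : ℕ → ℕ) (cc' Vc' G' : ℕ), p ≤ p' → b ≤ p' + 2 →
        Mid h g s' lo' hi' a b r p' c V cq Vq cc' Vc' →
        G' + Vc' + Vq ≤ T → SpV w h G' s') →
      SpV w h G s := by
  intro m
  induction m with
  | zero =>
    intro p s lo hi cc Vc G hm _ _ I hG cont
    exact cont p s lo hi cc Vc G le_rfl (by omega) I hG
  | succ m ih =>
    intro p s lo hi cc Vc G hm hp hpr I hG cont
    by_cases hpb : b ≤ p + 2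
    · exact cont p s lo hi cc Vc G le_rfl hpb I hG
    refine edge_loop hg hg1 hT hr hp (by omega) hpr hccq hcqc _ s lo hi cc Vc G le_rfl I hG ?_
    intro s' lo' hi' cc' Vc' G' I' hn' hG'
    refine ih (p + 2) s' lo' hi' cc' Vc' G' (by omega) (by omega) (by omega) ?_ hG' ?_
    · refine ⟨I'.kr, I'.kq, I'.cc1, I'.cc2, I'.vc, ?_, ?_, I'.q, I'.lev⟩
      · intro e h1 h2 h3 h4
        exact I'.unp e h1 h2 h3 (by omega)
      · intro e h1 h2 h3 h4
        by_cases he : e = p
        · subst he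
          exact ⟨hn', (I'.unp e (by omega) h2 h3 (Or.inr le_rfl)).fin hg hn'⟩
        · exact I'.pro e h1 h2 h3 (by omega)
    · intro p' s'' lo'' hi'' cc'' Vc'' G'' h1 h2
      exact cont p' s'' lo'' hi'' cc'' Vc'' G'' (by omega) h2

/-- Situation between two stages. -/
structure Mac (h g : ℕ) (s : St) (lo hi : ℕ → ℕ) (a b r c V cq Vq : ℕ) : Prop where
  kr : s.k r = c + V
  kq : s.k (1 - r) = cq + Vq
  er : ∀ e, a ≤ e → e < b → e % 2 = r → Bas (h + 1) (c + V) V c (s.n e) (lo e) (hi e)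
  eq : ∀ e, a ≤ e → e < b → e % 2 = 1 - r → Bas (h + 1) (cq + Vq) Vq cq (s.n e) (lo e) (hi e)
  lev : Lev (g + 3 * h + 2) s lo hi a b

theorem Mac.symm {h g : ℕ} {s : St} {lo hi : ℕ → ℕ} {a b r c V cq Vq : ℕ} (hr : r < 2)
    (I : Mac h g s lo hi a b r c V cq Vq) : Mac h g s lo hi a b (1 - r) cq Vq c V := by
  have h1 : 1 - (1 - r) = r := by omega
  refine ⟨I.kq, by rw [h1]; exact I.kr, I.eq, ?_, I.lev⟩
  rw [h1]; exact I.er

theorem mac_step {w h g T : ℕ} (hg : h ≤ g) (hg0 : 1 ≤ g) (hg1 : g ≤ 3 * h + 2)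
    (hT : T + (2 * g + 4 * h + 3) ≤ 2 * w + 1) {a b r c V cq Vq G : ℕ}
    {s : St} {lo hi : ℕ → ℕ} (hr : r < 2) (hab : a + 8 ≤ b)
    (I : Mac h g s lo hi a b r c V cq Vq) (hccq : c ≤ cq) (hcqc : cq ≤ c + (g + h))
    (hG : G + V + Vq ≤ T)
    (cont : ∀ (s' : St) (lo' hi' : ℕ → ℕ) (c' V' G' : ℕ),
      Mac h g s' lo' hi' (a + 2) (b - 2) r c' V' cq Vq → c ≤ c' → c' ≤ c + g + h →
      c + V + 1 ≤ c' + V' → G' + V' + Vq ≤ T → SpV w h G' s') : SpV w h G s := by
  obtain ⟨p, hp1, hp2, hp3⟩ : ∃ p, a + 2 ≤ p ∧ p ≤ a + 3 ∧ p % 2 = r := by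
    by_cases h1 : (a + 2) % 2 = r
    · exact ⟨a + 2, by omega, by omega, h1⟩
    · exact ⟨a + 3, by omega, by omega, by omega⟩
  refine stage (a := a) (b := b) (V := V) (Vq := Vq) hg hg1 hT hr hccq hcqc b p s lo hi c V G (by omega) hp1 hp3 ?_ hG ?_
  · refine ⟨I.kr, I.kq, le_rfl, by omega, le_rfl, ?_, ?_, I.eq, I.lev⟩
    · intro e h1 h2 h3 _
      have B := I.er e h1 h2 h3
      have b1 := B.nk
      have b2 := B.hl
      have b3 := B.hr
      exact ⟨B, by omega, Or.inl (by omega), Or.inl (by omega)⟩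
    · intro e h1 h2 h3 h4
      omega
  · intro p' s' lo' hi' cc Vc G' h1 h2 I' hG'
    have hpro := I'.pro p hp1 (by omega) hp3
    have hcc2 := I'.cc2
    have hcc1 := I'.cc1
    have hvc := I'.vc
    refine cont s' lo' hi' cc Vc G' ?_ hcc1 hcc2 ?_ hG'
    · refine ⟨I'.kr, I'.kq, ?_, ?_, ?_⟩
      · intro e h3 h4 h5
        have B := (I'.pro e h3 (by omega) h5 (by omega)).2
        exact ⟨B.nk, B.lo, by have := B.up; omega, by have := B.hl; omega,
          by have := B.hr; omega⟩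
      · intro e h3 h4 h5
        exact I'.q e (by omega) (by omega) h5
      · intro z h3 h4
        exact I'.lev z (by omega) (by omega)
    · have h5 := hpro (by omega)
      have h6 := h5.2.nk
      omega

theorem allStages {w h g T : ℕ} (hg : h ≤ g) (hg0 : 1 ≤ g) (hg1 : g ≤ 3 * h + 2)
    (hT : T + (2 * g + 4 * h + 3) ≤ 2 * w + 1) :
    ∀ m (s : St) (lo hi : ℕ → ℕ) (a b r c V cq Vq G : ℕ), r < 2 →
      Mac h g s lo hi a b r c V cq Vq → c ≤ cq + (g + h) → cq ≤ c + (g + h) →
      T ≤ c + V + (cq + Vq) + m → a + 4 * m + 8 ≤ b → G + V + Vq ≤ T → SpV w h G s := by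
  intro m
  induction m with
  | zero =>
    intro s lo hi a b r c V cq Vq G hr I _ _ hC _ hG
    apply SpV.done
    rw [sum_k s r hr, I.kr, I.kq]
    omega
  | succ m ih =>
    intro s lo hi a b r c V cq Vq G hr I h1 h2 hC hab hG
    rcases le_total c cq with hccq | hccq
    · refine mac_step hg hg0 hg1 hT hr (by omega) I hccq h2 hG ?_
      intro s' lo' hi' c' V' G' I' h3 h4 h5 h6
      exact ih s' lo' hi' (a + 2) (b - 2) r c' V' cq Vq G' hr I' (by omega) (by omega) (by omega)
        (by omega) h6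
    · refine mac_step hg hg0 hg1 hT (r := 1 - r) (by omega) (by omega) (I.symm hr) hccq h1
        (by omega) ?_
      intro s' lo' hi' c' V' G' I' h3 h4 h5 h6
      exact ih s' lo' hi' (a + 2) (b - 2) (1 - r) c' V' c V G' (by omega) I' (by omega)
        (by omega) (by omega) (by omega) h6

/-- Spoiler forces `2w - 2·max(h,1) - 4h - 2`. -/
theorem spV_lin (w h : ℕ) : SpV w h (2 * w - (2 * max h 1 + 4 * h + 2)) St.init := by
  by_cases hT : 2 * w ≤ 2 * max h 1 + 4 * h + 2
  · apply SpV.done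
    omega
  · refine allStages (T := 2 * w - (2 * max h 1 + 4 * h + 2)) (g := max h 1) (le_max_left _ _)
      (le_max_right _ _) (by omega) (by omega) (2 * w) St.init (fun _ => 0) (fun _ => 0) 0
      (8 * w + 8) 0 0 0 0 0 _ (by norm_num) ?_ (by omega) (by omega) (by omega) (by omega)
      (by omega)
    refine ⟨rfl, rfl, ?_, ?_, ?_⟩
    · intro e _ _ _
      refine ⟨?_, ?_, ?_, ?_, ?_⟩ <;> simp [St.init]
    · intro e _ _ _
      refine ⟨?_, ?_, ?_, ?_, ?_⟩ <;> simp [St.init]
    · intro z _ _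
      simp [St.init]

end H62Tok
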