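import Mathlib
import Pool.Agent.H66.TokModel

/-!
The online colouring game of tokens on the real line (MP_7950b2_co): openings of new colours.
-/

namespace H62Tok

open H66Tok

/-- The strategy `σ` colours properly: against every play of Spoiler whose token graph has
chromatic number at most `w`, tokens at distance less than `1` get different colours. (Nothing is
required about the number of colours.) -/
def Proper (w : ℕ) (σ : Strategy) : Prop :=
  ∀ l : List ℝ, Legal w l →
    (history σ l).Pairwise (fun s t => |s.1 - t.1| < 1 → s.2 ≠ t.2)

/-- The colours used in a history. -/
def used (H : List (ℝ × ℕ)) : Finset ℕ := (H.map Prod.snd).toFinset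

open Classical in
/-- The used colours that a new token at the point `x` could get: no token of this colour lies at
distance less than `1` from `x`. -/
noncomputable def usable (H : List (ℝ × ℕ)) (x : ℝ) : Finset ℕ :=
  (used H).filter (fun c => ∀ p ∈ H, |x - p.1| < 1 → p.2 ≠ c)

/-- The number of `h`-early openings in the play `l` (newest token first): tokens that get from
`σ` a colour not used before although more than `h` used colours are usable for them. -/
noncomputable def early (h : ℕ) (σ : Strategy) : List ℝ → ℕ
  | [] => 0
  | x :: l => early h σ l +
      if σ (history σ l) x ∉ used (history σ l) ∧ h < (usable (history σ l) x).card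
        then 1 else 0

end H62Tok
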