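import Mathlib
import Pool.Agent.H66.TokMain
import Pool.Agent.H62.TokVDefs
import Pool.Agent.H62.TokVModel

/-!
From the abstract parity pointer game with counted openings to the game on the real line.
-/

namespace H62Tok

open H66Tok Finset

/-- a token near the pointer of the site `z` is on one of the two edges of `z` -/
theorem near_edge {T : List Tok} {f ε : ℝ} (g : Geo T f ε) (z : ℕ) (x : Tok) (hx : x ∈ T)
    (h : |(z : ℝ) + f - x.pos| < 1) : x.edge = z - 1 ∨ x.edge = z := by
  have hz := g.hz x hx
  have ht := g.ht x hx
  have hf0 := g.hf0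
  have hf1 := g.hf1
  have heps := g.heps
  unfold Tok.pos at h
  rw [abs_lt] at h
  obtain ⟨h1, h2⟩ := h
  unfold Tok.edge
  cases hrx : x.r with
  | true =>
    have hr := g.hr x hx hrx
    simp only [if_true]
    have h3 : (x.z : ℝ) < (z : ℝ) + 1 := by linarith
    have h4 : (z : ℝ) < (x.z : ℝ) + 2 := by linarith
    have h5 : x.z < z + 1 := by exact_mod_cast h3
    have h6 : z < x.z + 2 := by exact_mod_cast h4
    omega
  | false =>
    have hl := g.hl x hx hrx
    simp only [Bool.false_eq_true, if_false]
    have h3 : (x.z : ℝ) < (z : ℝ) + 2 := by linarith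
    have h4 : (z : ℝ) < (x.z : ℝ) + 1 := by linarith
    have h5 : x.z < z + 2 := by exact_mod_cast h3
    have h6 : z < x.z + 1 := by exact_mod_cast h4
    omega

theorem snd_hist {σ : Strategy} {w : ℕ} {s : St} {T : List Tok} {f ε : ℝ} {par : ℕ → ℕ}
    (I : Inv σ w s T f ε par) :
    used (history σ (T.map Tok.pos)) = (T.map Tok.c).toFinset := by
  rw [used, ← I.hist, List.map_map]; rfl

theorem av_le {σ : Strategy} {w : ℕ} {s : St} {T : List Tok} {f ε : ℝ} {par : ℕ → ℕ}
    (I : Inv σ w s T f ε par) (z : ℕ) (hz : 1 ≤ z) :
    av s z ≤ (usable (history σ (T.map Tok.pos)) ((z : ℝ) + f)).card := by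
  classical
  set U : Finset ℕ := (T.map Tok.c).toFinset with hU
  let E : ℕ → Finset ℕ := fun e => ((T.filter (fun x => x.edge = e)).map Tok.c).toFinset
  let D : ℕ → Finset ℕ := fun e => U.filter (fun c => par c = e % 2) \ E e
  have hE : ∀ e, (E e).card = s.n e := by
    intro e
    rw [I.hn e, onEdge_eq_card (I.hnodup e)]
  have hD : ∀ e, s.k (e % 2) - s.n e ≤ (D e).card := by
    intro e
    have h1 := Finset.le_card_sdiff (E e) (U.filter (fun c => par c = e % 2))
    rw [hE e, ← I.hk (e % 2) (Nat.mod_lt _ (by norm_num))] at h1
    exact h1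
  have hdisj : Disjoint (D (z - 1)) (D z) := by
    rw [Finset.disjoint_left]
    intro c h1 h2
    have h3 := (Finset.mem_filter.mp (Finset.mem_sdiff.mp h1).1).2
    have h4 := (Finset.mem_filter.mp (Finset.mem_sdiff.mp h2).1).2
    omega
  have hsub : D (z - 1) ∪ D z ⊆ usable (history σ (T.map Tok.pos)) ((z : ℝ) + f) := by
    intro c hc
    have hmem : ∃ e, (e = z - 1 ∨ e = z) ∧ c ∈ D e := by
      rcases Finset.mem_union.mp hc with h | h
      · exact ⟨z - 1, Or.inl rfl, h⟩
      · exact ⟨z, Or.inr rfl, h⟩
    obtain ⟨e, he, hcD⟩ := hmem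
    obtain ⟨hc1, hc2⟩ := Finset.mem_sdiff.mp hcD
    obtain ⟨hc3, hc4⟩ := Finset.mem_filter.mp hc1
    unfold usable
    rw [Finset.mem_filter, snd_hist I]
    refine ⟨hc3, ?_⟩
    intro p hp hlt heq
    rw [← I.hist] at hp
    obtain ⟨x, hx, rfl⟩ := List.mem_map.mp hp
    simp only at hlt heq
    have hnear := near_edge I.geo z x hx hlt
    have hpx := I.hpar x hx
    rw [heq] at hpx
    have hxe : x.edge = e := by
      rcases hnear with h | h <;> rcases he with h' | h' <;> omega
    apply hc2
    change c ∈ ((T.filter (fun x => x.edge = e)).map Tok.c).toFinset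
    rw [List.mem_toFinset, List.mem_map]
    exact ⟨x, List.mem_filter.mpr ⟨hx, by simpa using hxe⟩, heq⟩
  have h1 := Finset.card_le_card hsub
  rw [Finset.card_union_of_disjoint hdisj] at h1
  have h2 := hD (z - 1)
  have h3 := hD z
  unfold av
  omega

theorem real_of_spV {σ : Strategy} {w h : ℕ} (hσ : Proper w σ) {G : ℕ} {s : St}
    (hs : SpV w h G s) :
    ∀ (T : List Tok) (f ε : ℝ) (par : ℕ → ℕ), Inv σ w s T f ε par →
      ∃ l : List ℝ, Legal w l ∧ G + early h σ (T.map Tok.pos) ≤
        (used (history σ l)).card + early h σ l := by
  induction hs with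
  | done G s hG =>
    intro T f ε par I
    refine ⟨T.map Tok.pos, ?_, ?_⟩
    · apply legal_of_windows
      intro a
      rw [win_map]
      exact I.hw a
    · rw [snd_hist I]
      have hparU : ∀ b ∈ (T.map Tok.c).toFinset, par b < 2 := by
        intro b hb
        rw [List.mem_toFinset, List.mem_map] at hb
        obtain ⟨y, hy, rfl⟩ := hb
        rw [← I.hpar y hy]; exact Nat.mod_lt _ (by norm_num)
      have hsum : s.k 0 + s.k 1 = (T.map Tok.c).toFinset.card := by
        rw [I.hk 0 (by norm_num), I.hk 1 (by norm_num), ← Finset.card_union_of_disjoint]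
        · congr 1
          ext b
          simp only [Finset.mem_union, Finset.mem_filter]
          constructor
          · rintro (h | h) <;> exact h.1
          · intro h
            have := hparU b h
            have : par b = 0 ∨ par b = 1 := by omega
            tauto
        · rw [Finset.disjoint_filter]
          intro b _ h0 h1; omega
      omega
  | step G s z d hz hM hL hR hC hE ihL ihR ihC ihE =>
    intro T f ε par I
    have g := I.geo
    set l : List ℝ := T.map Tok.pos with hl
    set x : ℝ := (z : ℝ) + f with hx
    set c : ℕ := σ (history σ l) x with hc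
    have hlegal : Legal w (x :: l) := by
      apply legal_of_windows
      intro a
      rw [List.countP_cons, hl, win_map]
      by_cases h : a < x ∧ x < a + 1
      · have := I.hM z hz a h.1 h.2
        simp [h]; omega
      · have := I.hw a
        simp [h]; exact this
    have hpw := hσ (x :: l) hlegal
    rw [history] at hpw
    have hhead := (List.pairwise_cons.mp hpw).1
    have hfresh : ∀ y ∈ T, |(z : ℝ) + f - y.pos| < 1 → c ≠ y.c := by
      intro y hy hlt
      have hmem : (y.pos, y.c) ∈ history σ l := by
        rw [← I.hist]; exact List.mem_map_of_mem (f := fun x => (x.pos, x.c)) hy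
      exact hhead _ hmem hlt
    have hused := snd_hist I
    rw [← hl] at hused
    have hpos : ∀ r : Bool, ((⟨z, f, c, r⟩ :: T : List Tok).map Tok.pos) = x :: l := by
      intro r; rfl
    have hearly : early h σ l ≤ early h σ (x :: l) := by
      rw [early]; omega
    have hparU : ∀ b ∈ (T.map Tok.c).toFinset, par b < 2 := by
      intro b hb
      rw [List.mem_toFinset, List.mem_map] at hb
      obtain ⟨y, hy, rfl⟩ := hb
      rw [← I.hpar y hy]; exact Nat.mod_lt _ (by norm_num)
    by_cases hcU : c ∈ (T.map Tok.c).toFinset
    · -- an old colour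
      have hp2 := hparU c hcU
      have hcases : par c = (z - 1) % 2 ∨ par c = z % 2 := by omega
      have hins : ∀ r : Bool, (((⟨z, f, c, r⟩ :: T : List Tok).map Tok.c).toFinset) =
          (T.map Tok.c).toFinset := by
        intro r
        rw [List.map_cons, List.toFinset_cons]
        exact Finset.insert_eq_of_mem hcU
      rcases hcases with h1 | h1
      · have hlt : s.n (z - 1) < s.k ((z - 1) % 2) := by
          rw [I.hn, I.hk _ (Nat.mod_lt _ (by norm_num))]
          exact edge_lt I.hpar (I.hnodup _) hcU h1
            (fun y hy he => hfresh y hy (near_left g z hz y hy he))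
        obtain ⟨l', hl1, hl2⟩ := ihL hlt _ _ _ _ (inv_L I z c hz hM hc hfresh par
          (fun _ _ => rfl) h1 _ rfl rfl (by intro i hi; rw [hins]; exact I.hk i hi))
        rw [hpos] at hl2
        exact ⟨l', hl1, by omega⟩
      · have hlt : s.n z < s.k (z % 2) := by
          rw [I.hn, I.hk _ (Nat.mod_lt _ (by norm_num))]
          exact edge_lt I.hpar (I.hnodup _) hcU h1
            (fun y hy he => hfresh y hy (near_right g z y hy he))
        obtain ⟨l', hl1, hl2⟩ := ihR hlt _ _ _ _ (inv_R I z c hz hM hc hfresh par
          (fun _ _ => rfl) h1 _ rfl rfl (by intro i hi; rw [hins]; exact I.hk i hi))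
        rw [hpos] at hl2
        exact ⟨l', hl1, by omega⟩
    · -- a new colour
      have hcT : ∀ y ∈ T, y.c ≠ c := by
        intro y hy h
        apply hcU
        rw [List.mem_toFinset, ← h]
        exact List.mem_map_of_mem hy
      have hkk : ∀ (r : Bool) (v : ℕ) (i : ℕ), i < 2 →
          (((⟨z, f, c, r⟩ :: T : List Tok).map Tok.c).toFinset.filter
            (fun b => Function.update par c v b = i)).card =
            if i = v then s.k i + 1 else s.k i := by
        intro r v i hi
        rw [List.map_cons, List.toFinset_cons]
        have hcongr : ((T.map Tok.c).toFinset.filter (fun b => Function.update par c v b = i)) =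
            ((T.map Tok.c).toFinset.filter (fun b => par b = i)) := by
          apply Finset.filter_congr
          intro b hb
          have : b ≠ c := fun h => hcU (h ▸ hb)
          rw [Function.update_of_ne this]
        rw [Finset.filter_insert, hcongr]
        simp only [Function.update_self]
        by_cases h : v = i
        · rw [if_pos h, if_pos h.symm, Finset.card_insert_of_notMem, I.hk i hi]
          intro hmem
          exact hcU (Finset.mem_filter.mp hmem).1
        · rw [if_neg h, if_neg (fun h' => h h'.symm), I.hk i hi]
      have hav := av_le I z hz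
      rw [← hl, ← hx] at hav
      have hcc : c ∉ used (history σ l) := by rw [hused]; exact hcU
      have hJ : ∃ (T' : List Tok) (f' ε' : ℝ) (par' : ℕ → ℕ),
          Inv σ w (s.new z d) T' f' ε' par' ∧ T'.map Tok.pos = x :: l := by
        cases d with
        | true =>
          refine ⟨_, _, _, _, inv_L I z c hz hM hc hfresh
            (Function.update par c ((z - 1) % 2)) ?_ (Function.update_self ..) _ rfl rfl ?_,
            hpos _⟩
          · intro y hy
            rw [Function.update_of_ne (hcT y hy)]
          · intro i hi
            rw [hkk false _ i hi]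
            rfl
        | false =>
          refine ⟨_, _, _, _, inv_R I z c hz hM hc hfresh
            (Function.update par c (z % 2)) ?_ (Function.update_self ..) _ rfl rfl ?_,
            hpos _⟩
          · intro y hy
            rw [Function.update_of_ne (hcT y hy)]
          · intro i hi
            rw [hkk true _ i hi]
            rfl
      obtain ⟨T', f', ε', par', J, hT'⟩ := hJ
      by_cases hah : av s z ≤ h
      · obtain ⟨l', hl1, hl2⟩ := ihC hah _ _ _ _ J
        rw [hT'] at hl2
        exact ⟨l', hl1, by omega⟩
      · obtain ⟨l', hl1, hl2⟩ := ihE (not_le.mp hah) _ _ _ _ J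
        rw [hT'] at hl2
        have he : early h σ (x :: l) = early h σ l + 1 := by
          rw [early, if_pos ⟨hcc, by omega⟩]
        exact ⟨l', hl1, by omega⟩

/-- If Spoiler forces `G` in the abstract game then every proper strategy has a legal play with
(number of colours) + (number of `h`-early openings) at least `G`. -/
theorem exists_play {σ : Strategy} {w h G : ℕ} (hσ : Proper w σ) (hs : SpV w h G St.init) :
    ∃ l : List ℝ, Legal w l ∧ G ≤ (used (history σ l)).card + early h σ l := by
  obtain ⟨l, h1, h2⟩ := real_of_spV hσ hs _ _ _ _ (inv_init σ w)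
  refine ⟨l, h1, ?_⟩
  simp only [List.map_nil, early] at h2
  omega

end H62Tok
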